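import Pool.Agent.Work.MP_44129c_co.MF.Basic

/-!
# MP_44129c_co/Fin, Goodman2 (size M): an MF colouring has `4 s + 1 ≤ N`

`opp b x y` = common neighbours `z` with `b x z ≠ b x y`, `b y z ≠ b x y` (MF/Basic).
`opp_ge`: PROOF.  Suppose `(opp b x y).card < s`.  The vertices `≠ x, y` outside `opp b x y` are at least
`m + s - 2 - (s - 1) = m - 1`; choose `m - 1` of them; those with `b x z = b x y` are leaves at `x`, the
others (`b y z = b x y`) leaves at `y`: a monochromatic double star with `m` edges.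
`goodman2`: PROOF.  `n = N - 1`.  `M` = ordered triples `(x, y, z)` of different vertices with
`b x z ≠ b x y`, `b y z ≠ b x y`; `M.card ≥ s N n` (`opp_ge`).  `D` = ordered triples of different vertices
with `b x z ≠ b x y`.  `M ⊆ D`, and `M' = {(x, z, y) | (x, y, z) ∈ M} ⊆ D` is disjoint from `M`: for
`(x, y, z) ∈ M` `b x z = b y z` (two colours), so `(x, z, y) ∉ M`.  Hence `2 M.card ≤ D.card`, and
`D.card = ∑_x 2 r_x (n - r_x) ≤ N n² / 2` (`r_x` = number of `y` with `b x y = true`), so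
`4 s N n ≤ N n²`, `4 s ≤ n` (`n ≥ 1`).
-/

set_option autoImplicit false

namespace ZS44129

open Finset

theorem opp_ge {V : Type} [Fintype V] [DecidableEq V] {m s : ℕ} (hm : 1 ≤ m)
    (hV : Fintype.card V = m + s) (b : V → V → Bool) (hb : ∀ x y, b x y = b y x) (h : MF m b)
    {x y : V} (hxy : x ≠ y) : s ≤ (opp b x y).card := by
  classical
  by_contra hcon
  have hlt : (opp b x y).card < s := not_le.1 hcon
  set Z : Finset V := ((univ.erase x).erase y) \ opp b x y with hZ
  have h1 : ((univ.erase x).erase y).card = m + s - 2 := by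
    rw [card_erase_of_mem (mem_erase.2 ⟨hxy.symm, mem_univ y⟩), card_erase_of_mem (mem_univ x),
      card_univ, hV]
    omega
  have h2 : m - 1 ≤ Z.card := by
    have h3 := le_card_sdiff (opp b x y) ((univ.erase x).erase y)
    rw [h1, ← hZ] at h3
    omega
  obtain ⟨T, hTZ, hTc⟩ := exists_subset_card_eq h2
  have hT : ∀ z ∈ T, z ≠ x ∧ z ≠ y ∧ ¬ (b x z ≠ b x y ∧ b y z ≠ b x y) := by
    intro z hz
    have h3 := mem_sdiff.1 (hTZ hz)
    have h4 := mem_erase.1 h3.1
    have h5 := mem_erase.1 h4.2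
    refine ⟨h5.1, h4.1, fun h6 => h3.2 ?_⟩
    unfold opp
    rw [mem_filter]
    exact ⟨mem_univ z, h5.1, h4.1, h6.1, h6.2⟩
  refine h x y hxy (T.filter (fun z => b x z = b x y)) (T.filter (fun z => ¬ b x z = b x y))
    (disjoint_filter_filter_not _ _ _) ?_ ?_ ?_ ?_ ?_ ⟨?_, ?_⟩
  · exact fun h3 => (hT x (mem_filter.1 h3).1).1 rfl
  · exact fun h3 => (hT y (mem_filter.1 h3).1).2.1 rfl
  · exact fun h3 => (hT x (mem_filter.1 h3).1).1 rfl
  · exact fun h3 => (hT y (mem_filter.1 h3).1).2.1 rfl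
  · rw [card_filter_add_card_filter_not, hTc]
    omega
  · exact fun z hz => (mem_filter.1 hz).2
  · intro z hz
    have h3 := mem_filter.1 hz
    by_contra h4
    exact (hT z h3.1).2.2 ⟨h3.2, h4⟩

theorem goodman2 {V : Type} [Fintype V] [DecidableEq V] {m s : ℕ} (hm : 1 ≤ m) (hs : 1 ≤ s)
    (hV : Fintype.card V = m + s) (b : V → V → Bool) (hb : ∀ x y, b x y = b y x) (h : MF m b) :
    3 * s + 1 ≤ m := by
  classical
  have hne : 0 < Fintype.card V := by omega
  obtain ⟨x⟩ := Fintype.card_pos_iff.1 hne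
  set E : Finset V := univ.erase x with hE
  have hEc : E.card = m + s - 1 := by
    rw [hE, card_erase_of_mem (mem_univ x), card_univ, hV]
  set M : Finset (Σ _ : V, V) := E.sigma (fun y => opp b x y) with hM
  have hMc : (m + s - 1) * s ≤ M.card := by
    rw [hM, card_sigma, ← hEc, ← smul_eq_mul]
    refine card_nsmul_le_sum E _ s (fun y hy => ?_)
    exact opp_ge hm hV b hb h (ne_of_mem_erase hy).symm
  set R : Finset V := E.filter (fun y => b x y = true) with hR
  set T : Finset V := E.filter (fun y => ¬ b x y = true) with hT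
  have hRT : R.card + T.card = m + s - 1 := by
    rw [hR, hT, card_filter_add_card_filter_not, hEc]
  have hmem : ∀ p ∈ M, p.1 ∈ E ∧ p.2 ∈ E ∧ b x p.2 ≠ b x p.1 ∧ b p.1 p.2 ≠ b x p.1 := by
    intro p hp
    have h1 := mem_sigma.1 hp
    have h2 := (mem_filter.1 h1.2).2
    exact ⟨h1.1, mem_erase.2 ⟨h2.1, mem_univ _⟩, h2.2.2.1, h2.2.2.2⟩
  set M1 : Finset (V × V) := M.image (fun p => (p.1, p.2)) with hM1
  set M2 : Finset (V × V) := M.image (fun p => (p.2, p.1)) with hM2
  have c1 : M1.card = M.card := by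
    apply card_image_of_injective
    rintro ⟨a, a'⟩ ⟨c, c'⟩ hac
    simp only [Prod.mk.injEq] at hac
    rw [hac.1, hac.2]
  have c2 : M2.card = M.card := by
    apply card_image_of_injective
    rintro ⟨a, a'⟩ ⟨c, c'⟩ hac
    simp only [Prod.mk.injEq] at hac
    rw [hac.1, hac.2]
  have hdis : Disjoint M1 M2 := by
    rw [disjoint_left]
    intro q hq1 hq2
    obtain ⟨p, hp, rfl⟩ := mem_image.1 hq1
    obtain ⟨r, hr, hrp⟩ := mem_image.1 hq2
    simp only [Prod.mk.injEq] at hrp
    have h1 := hmem p hp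
    have h2 := hmem r hr
    rw [hrp.1, hrp.2] at h2
    have h3 := h1.2.2.1
    have h4 := h1.2.2.2
    have h5 := h2.2.2.2
    rw [hb p.2 p.1] at h5
    revert h3 h4 h5
    cases b x p.2 <;> cases b x p.1 <;> cases b p.1 p.2 <;> simp
  have hcov : ∀ u v : V, u ∈ E → v ∈ E → b x u ≠ b x v →
      (u, v) ∈ (R ×ˢ T) ∪ (T ×ˢ R) := by
    intro u v hu hv huv
    rw [mem_union, mem_product, mem_product]
    by_cases h1 : b x u = true
    · left
      refine ⟨mem_filter.2 ⟨hu, h1⟩, mem_filter.2 ⟨hv, fun h2 => huv (h1.trans h2.symm)⟩⟩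
    · right
      refine ⟨mem_filter.2 ⟨hu, h1⟩, mem_filter.2 ⟨hv, ?_⟩⟩
      by_contra h2
      rw [Bool.not_eq_true] at h1 h2
      exact huv (h1.trans h2.symm)
  have hsub : M1 ∪ M2 ⊆ (R ×ˢ T) ∪ (T ×ˢ R) := by
    intro q hq
    rcases mem_union.1 hq with hq | hq
    · obtain ⟨p, hp, rfl⟩ := mem_image.1 hq
      have h1 := hmem p hp
      exact hcov _ _ h1.1 h1.2.1 h1.2.2.1.symm
    · obtain ⟨p, hp, rfl⟩ := mem_image.1 hq
      have h1 := hmem p hp
      exact hcov _ _ h1.2.1 h1.1 h1.2.2.1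
  have hle := card_le_card hsub
  rw [card_union_of_disjoint hdis, c1, c2] at hle
  have hle2 := hle.trans (card_union_le _ _)
  rw [card_product, card_product] at hle2
  -- arithmetic
  obtain ⟨n, hn⟩ : ∃ n, n = m + s - 1 := ⟨_, rfl⟩
  rw [← hn] at hMc hRT
  have hn1 : 1 ≤ n := by omega
  have k1 : n * s ≤ R.card * T.card := by
    have : T.card * R.card = R.card * T.card := Nat.mul_comm _ _
    omega
  have k2 : 4 * (R.card * T.card) ≤ n * n := by
    rw [← hRT]
    rcases le_total R.card T.card with h3 | h3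
    · obtain ⟨e, he⟩ := Nat.exists_eq_add_of_le h3
      rw [he]
      nlinarith [Nat.zero_le (e * e)]
    · obtain ⟨e, he⟩ := Nat.exists_eq_add_of_le h3
      rw [he]
      nlinarith [Nat.zero_le (e * e)]
  have k3 : n * (4 * s) ≤ n * n := by
    calc n * (4 * s) = 4 * (n * s) := by ring
      _ ≤ 4 * (R.card * T.card) := Nat.mul_le_mul_left _ k1
      _ ≤ n * n := k2
  have k4 : 4 * s ≤ n := Nat.le_of_mul_le_mul_left k3 hn1
  omega

end ZS44129
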