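import Pool.Agent.Work.MP_44129c_co.Fin.Star

/-!
# MP_44129c_co/Fin, KeyStar: the range theorem
-/

set_option autoImplicit false

namespace ZS44129

/-- in the range a ZSF colouring gives an MF colouring. -/
theorem star_mf {m s : ℕ} [NeZero m] (hr : RngK m s) {V : Type} [Fintype V] [DecidableEq V]
    (hV : Fintype.card V = m + s) (c : V → V → ZMod m) (hsym : ∀ x y, c x y = c y x)
    (hz : ZSF m c) : ∃ b : V → V → Bool, (∀ x y, b x y = b y x) ∧ MF m b :=
  star_mf' hr hV c hsym hz

end ZS44129
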