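import Pool.Agent.Work.MP_44129c_co.Small.C64
import Pool.Agent.Work.MP_44129c_co.Small.C75
import Pool.Agent.Work.MP_44129c_co.Small.C86

/-!
# MP_44129c_co/Fin, Tiny (size S-M): no ZSF colouring for `(N, m) = (3, 2), (4, 3)`; restriction

PROOFS.  `no32`: vertices `0, 1, 2`: stars with two edges: `c 0 1 + c 0 2 ≠ 0`, `c 1 0 + c 1 2 ≠ 0`,
`c 2 0 + c 2 1 ≠ 0` in `ZMod 2`: the three edge colours are pairwise different.
`no43`: write down the conditions for stars with 3 edges (`X` = the two other vertices, `Y = ∅`) and for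
paths `x u v y` (`X = {x}`, `Y = {y}`): a statement about six elements of `ZMod 3`, `decide` (or
`revert`, `decide` after `generalize`).  (Or helper24's `no_zsf_of_chk` with a certificate.)
`zsf_restrict`: a double star in the smaller set is one in the bigger set (`Finset.map f`).
-/

set_option autoImplicit false

namespace ZS44129

open Finset

private theorem tiny2 : ∀ a b d : ZMod 2, a + b ≠ 0 → a + d ≠ 0 → b + d ≠ 0 → False := by
  decide

theorem no32 (c : Fin 3 → Fin 3 → ZMod 2) (hs : ∀ x y, c x y = c y x) : ¬ ZSF 2 c := by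
  intro hz
  have h1 := hz 0 1 (by decide) {2} ∅ (by decide) (by decide) (by decide) (by decide) (by decide)
    (by decide)
  have h2 := hz 1 0 (by decide) {2} ∅ (by decide) (by decide) (by decide) (by decide) (by decide)
    (by decide)
  have h3 := hz 2 0 (by decide) {1} ∅ (by decide) (by decide) (by decide) (by decide) (by decide)
    (by decide)
  rw [sum_singleton, sum_empty, add_zero] at h1 h2 h3
  rw [hs 1 0] at h2
  rw [hs 2 0, hs 2 1] at h3
  exact tiny2 _ _ _ h1 h2 h3

private theorem tiny3 : ∀ x : ZMod 3 × ZMod 3 × ZMod 3 × ZMod 3 × ZMod 3 × ZMod 3,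
    ¬ (x.1 + x.2.1 + x.2.2.1 ≠ 0 ∧ x.1 + x.2.2.2.1 + x.2.2.2.2.1 ≠ 0 ∧
      x.2.1 + x.2.2.2.1 + x.2.2.2.2.2 ≠ 0 ∧ x.2.2.1 + x.2.2.2.2.1 + x.2.2.2.2.2 ≠ 0 ∧
      x.1 + x.2.1 + x.2.2.2.2.1 ≠ 0 ∧ x.1 + x.2.2.1 + x.2.2.2.1 ≠ 0 ∧
      x.2.1 + x.1 + x.2.2.2.2.2 ≠ 0 ∧ x.2.1 + x.2.2.1 + x.2.2.2.1 ≠ 0 ∧
      x.2.2.1 + x.1 + x.2.2.2.2.2 ≠ 0 ∧ x.2.2.1 + x.2.1 + x.2.2.2.2.1 ≠ 0 ∧
      x.2.2.2.1 + x.1 + x.2.2.2.2.2 ≠ 0 ∧ x.2.2.2.2.1 + x.1 + x.2.2.2.2.2 ≠ 0) := by
  decide +kernel

theorem no43 (c : Fin 4 → Fin 4 → ZMod 3) (hs : ∀ x y, c x y = c y x) : ¬ ZSF 3 c := by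
  intro hz
  have st : ∀ u v x y : Fin 4, u ≠ v → u ≠ x → u ≠ y → v ≠ x → v ≠ y → x ≠ y →
      c u v + c u x + c u y ≠ 0 := by
    intro u v x y h1 h2 h3 h4 h5 h6
    have h := hz u v h1 {x, y} ∅ (by simp) (by simp [h2, h3]) (by simp [h4, h5]) (by simp)
      (by simp) (by rw [card_pair h6, card_empty])
    rw [sum_pair h6, sum_empty, add_zero, ← add_assoc] at h
    exact h
  have pt : ∀ u v x y : Fin 4, u ≠ v → u ≠ x → u ≠ y → v ≠ x → v ≠ y → x ≠ y →
      c u v + c u x + c v y ≠ 0 := by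
    intro u v x y h1 h2 h3 h4 h5 h6
    have h := hz u v h1 {x} {y} (by simp [h6]) (by simp [h2]) (by simp [h4]) (by simp [h3])
      (by simp [h5]) (by simp)
    rw [sum_singleton, sum_singleton] at h
    exact h
  have s0 := st 0 1 2 3 (by decide) (by decide) (by decide) (by decide) (by decide) (by decide)
  have s1 := st 1 0 2 3 (by decide) (by decide) (by decide) (by decide) (by decide) (by decide)
  have s2 := st 2 0 1 3 (by decide) (by decide) (by decide) (by decide) (by decide) (by decide)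
  have s3 := st 3 0 1 2 (by decide) (by decide) (by decide) (by decide) (by decide) (by decide)
  have p1 := pt 0 1 2 3 (by decide) (by decide) (by decide) (by decide) (by decide) (by decide)
  have p2 := pt 0 1 3 2 (by decide) (by decide) (by decide) (by decide) (by decide) (by decide)
  have p3 := pt 0 2 1 3 (by decide) (by decide) (by decide) (by decide) (by decide) (by decide)
  have p4 := pt 0 2 3 1 (by decide) (by decide) (by decide) (by decide) (by decide) (by decide)
  have p5 := pt 0 3 1 2 (by decide) (by decide) (by decide) (by decide) (by decide) (by decide)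
  have p6 := pt 0 3 2 1 (by decide) (by decide) (by decide) (by decide) (by decide) (by decide)
  have p7 := pt 1 2 0 3 (by decide) (by decide) (by decide) (by decide) (by decide) (by decide)
  have p8 := pt 1 3 0 2 (by decide) (by decide) (by decide) (by decide) (by decide) (by decide)
  have e10 := hs 1 0
  have e20 := hs 2 0
  have e30 := hs 3 0
  have e21 := hs 2 1
  have e31 := hs 3 1
  have e32 := hs 3 2
  simp only [e10, e20, e30, e21, e31, e32] at s0 s1 s2 s3 p1 p2 p3 p4 p5 p6 p7 p8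
  generalize c 0 1 = a at *
  generalize c 0 2 = b at *
  generalize c 0 3 = d at *
  generalize c 1 2 = e at *
  generalize c 1 3 = f at *
  generalize c 2 3 = g at *
  have key := tiny3 (a, b, d, e, f, g)
  exact key ⟨s0, s1, s2, s3, p1, p2, p3, p4, p5, p6, p7, p8⟩

theorem zsf_restrict {V W : Type} [DecidableEq V] [DecidableEq W] {m : ℕ} (c : W → W → ZMod m)
    (hz : ZSF m c) (f : V → W) (hf : Function.Injective f) : ZSF m (fun x y => c (f x) (f y)) := by
  classical
  intro u v huv X Y hXY huX hvX huY hvY hc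
  have hfm : ∀ (x : V) (S : Finset V), x ∉ S → f x ∉ S.map ⟨f, hf⟩ := by
    intro x S hx hm
    rw [mem_map] at hm
    obtain ⟨y, hy, he⟩ := hm
    exact hx (hf he ▸ hy)
  have h := hz (f u) (f v) (hf.ne huv) (X.map ⟨f, hf⟩) (Y.map ⟨f, hf⟩)
    ((disjoint_map _).2 hXY) (hfm u X huX) (hfm v X hvX) (hfm u Y huY) (hfm v Y hvY)
    (by rw [card_map, card_map]; exact hc)
  rw [sum_map, sum_map] at h
  exact h

end ZS44129
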