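import Pool.Agent.Work.MP_44129c_co.Fin.SmallMF
import Pool.Agent.Work.MP_44129c_co.Fin.Goodman2
import Pool.Agent.Work.MP_44129c_co.Fin.Tiny
import Pool.Agent.Work.MP_44129c_co.Fin.KeyStar
import Pool.Agent.Work.MP_44129c_co.Small.C107
import Pool.Agent.Work.MP_44129c_co.Small.C118
import Pool.Agent.Work.MP_44129c_co.Small.C129
import Pool.Agent.Work.MP_44129c_co.Small.C1410
import Pool.Agent.Work.MP_44129c_co.MF.Range2
import Pool.Agent.Work.MP_44129c_co.HardDir

/-!
# MP_44129c_co/Fin, FullAsm (helper8): the frozen statement from `star_mf`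
-/

set_option autoImplicit false

namespace ZS44129

open Finset

/-- the negative part: no ZSF colouring on `m + (m + 2) / 3` vertices. -/
theorem no_zsf_neg {m : ℕ} (hm : 2 ≤ m) (c : Fin (m + (m + 2) / 3) → Fin (m + (m + 2) / 3) → ZMod m)
    (hsym : ∀ x y, c x y = c y x) : ¬ ZSF m c := by
  intro hz
  rcases Nat.lt_or_ge m 11 with h7 | h7
  · have hm' : m = 2 ∨ m = 3 ∨ m = 4 ∨ m = 5 ∨ m = 6 ∨ m = 7 ∨ m = 8 ∨ m = 9 ∨ m = 10 := by omega
    rcases hm' with rfl | rfl | rfl | rfl | rfl | rfl | rfl | rfl | rfl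
    · exact no32 c hsym hz
    · exact no43 c hsym hz
    · exact Small.C64.no_zsf c hsym hz
    · exact Small.C75.no_zsf c hsym hz
    · exact Small.C86.no_zsf c hsym hz
    · exact Small.C107.no_zsf c hsym hz
    · exact Small.C118.no_zsf c hsym hz
    · exact Small.C129.no_zsf c hsym hz
    · exact Small.C1410.no_zsf c hsym hz
  · have : NeZero m := ⟨by omega⟩
    have hr : RngK m ((m + 2) / 3) := Or.inl ⟨by omega, by omega, by omega, by omega⟩
    obtain ⟨b, hb, hmf⟩ := star_mf hr (by rw [Fintype.card_fin]) c hsym hz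
    have := goodman2 (s := (m + 2) / 3) (by omega) (by omega) (by rw [Fintype.card_fin]) b hb hmf
    omega

/-- every ZSF colouring gives an MF colouring. -/
theorem full_pos {m N : ℕ} (hm : 2 ≤ m) (c : Fin N → Fin N → ZMod m)
    (hsym : ∀ x y, c x y = c y x) (hz : ZSF m c) :
    ∃ b : Fin N → Fin N → Bool, (∀ x y, b x y = b y x) ∧ MF m b := by
  have : NeZero m := ⟨by omega⟩
  -- the negative part
  have hneg : N < m + (m + 2) / 3 := by
    by_contra hcon
    push Not at hcon
    exact no_zsf_neg hm (fun x y => c (Fin.castLE hcon x) (Fin.castLE hcon y))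
      (fun x y => hsym _ _) (zsf_restrict c hz (Fin.castLE hcon) (Fin.castLE_injective hcon))
  by_contra hno
  rcases Nat.lt_or_ge N (m + 1) with hNm | hNm
  · -- fewer than `m + 1` vertices
    apply hno
    refine ⟨fun _ _ => true, fun _ _ => rfl, ?_⟩
    intro u v huv X Y hXY huX hvX huY hvY hcard _
    have h1 : (insert u (insert v (X ∪ Y))).card ≤ N := by
      have := card_le_univ (insert u (insert v (X ∪ Y)))
      rwa [Fintype.card_fin] at this
    rw [card_insert_of_notMem (by simp [huv, huX, huY]), card_insert_of_notMem (by simp [hvX, hvY]),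
      card_union_of_disjoint hXY] at h1
    omega
  · obtain ⟨s, hs⟩ : ∃ s, m + s = N := ⟨N - m, by omega⟩
    have hstar : RngK m s → False := fun hr =>
      hno (star_mf hr (by rw [Fintype.card_fin]; omega) c hsym hz)
    have hsmall : ¬ ((s ≤ 4 ∧ 4 * s + 1 ≤ N ∧ N ≤ 4 * s + 2) ∨ (N = 26 ∧ s = 6) ∨
        (N = 30 ∧ s = 7)) := fun h => hno (mf_of_mfs hs (mfs_small h))
    rcases mf_pos2 hs hno with h | ⟨h1, h2⟩ | ⟨h1, h2⟩ | ⟨h1, h2, h3⟩ | ⟨h1, h2, h3⟩
    · -- `N ≤ 4 s + 2`, and `N ≥ 4 s + 1`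
      have h4 : 4 * s + 1 ≤ N := by omega
      rcases (by omega : N = 4 * s + 1 ∨ N = 4 * s + 2) with h5 | h5
      · exact hstar (Or.inr (Or.inl ⟨by omega, by omega⟩))
      · exact hstar (Or.inr (Or.inr (Or.inl ⟨by omega, by omega⟩)))
    all_goals
      exact hstar (Or.inr (Or.inr (Or.inr (by unfold H.R2; omega))))

theorem full (m : ℕ) (hm : 2 ≤ m) (N : ℕ) : P2 m N ↔ PZ m N :=
  ⟨fun h2 => hard_dir hm (fun c hc hz => full_pos hm c hc hz) h2, fun hz => easy_dir (by omega) hz⟩

end ZS44129
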