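import Pool.Agent.Work.MP_44129c_co.PL.Good
import Pool.Agent.Work.MP_44129c_co.H.Defs

/-!
# MP_44129c_co/Fin, Rng: the range of the pairs

`RngK m s` is the range which is really needed (`t = m - 3 s - 1`): `t < 0`, `4 ≤ s`, `m ≠ 10`; `t = 0` and `5 ≤ s`; `t = 1` and
`s = 5` or `8 ≤ s`; `2 ≤ t`: `H.R2` (H/Defs).
-/

set_option autoImplicit false

namespace ZS44129

/-- the range needed for the frozen statement. -/
def RngK (m s : ℕ) : Prop :=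
  (4 ≤ s ∧ 3 * s ≤ m + 2 ∧ m ≤ 3 * s ∧ m ≠ 10) ∨ (5 ≤ s ∧ m = 3 * s + 1) ∨
    ((s = 5 ∨ 8 ≤ s) ∧ m = 3 * s + 2) ∨ H.R2 m s

end ZS44129
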