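import Pool.Agent.Work.MP_44129c_co.MF.Twin
import Pool.Agent.Work.MP_44129c_co.MF.PalP

/-!
# MP_44129c_co/Fin, SmallMF (helper8): the Paley colourings of orders 9 and 25, small table
-/

set_option autoImplicit false

namespace ZS44129

/-- the sum graph of two triangles (Paley 9). -/
def pal9 : Fin 9 → Fin 9 → Bool := fun x y =>
  let a := (x.val / 3 + 3 - y.val / 3) % 3
  let b := (x.val % 3 + 3 - y.val % 3) % 3
  (a == 0) != (b == 0)

/-- Paley 25: the norm `a² - 2 b²` of the difference is a square mod 5. -/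
def pal25 : Fin 25 → Fin 25 → Bool := fun x y =>
  let a := (x.val / 5 + 5 - y.val / 5) % 5
  let b := (x.val % 5 + 5 - y.val % 5) % 5
  let n := (a * a + 3 * b * b) % 5
  n == 1 || n == 4

theorem mfs9 : MFs 9 2 := by
  refine ⟨pal9, ?_, ?_⟩
  · decide +kernel
  · decide +kernel

theorem mfs25 : MFs 25 6 := by
  refine ⟨pal25, ?_, ?_⟩
  · decide +kernel
  · decide +kernel

/-- the small pairs with an MF colouring. -/
theorem mfs_small {N s : ℕ} (h : (s ≤ 4 ∧ 4 * s + 1 ≤ N ∧ N ≤ 4 * s + 2) ∨ (N = 26 ∧ s = 6) ∨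
    (N = 30 ∧ s = 7)) : MFs N s := by
  have h5 : MFs 5 1 := by simpa using mfs_paley (q := 5) (by norm_num) (by norm_num)
  have h13 : MFs 13 3 := by simpa using mfs_paley (q := 13) (by norm_num) (by norm_num)
  have h17 : MFs 17 4 := by simpa using mfs_paley (q := 17) (by norm_num) (by norm_num)
  have h29 : MFs 29 7 := by simpa using mfs_paley (q := 29) (by norm_num) (by norm_num)
  rcases h with ⟨h1, h2, h3⟩ | ⟨rfl, rfl⟩ | ⟨rfl, rfl⟩
  · have hs : s = 0 ∨ s = 1 ∨ s = 2 ∨ s = 3 ∨ s = 4 := by omega
    rcases hs with rfl | rfl | rfl | rfl | rfl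
    · exact mfs_zero _
    · have hN : N = 5 ∨ N = 6 := by omega
      rcases hN with rfl | rfl
      · exact h5
      · exact mfs_twin (by norm_num) h5
    · have hN : N = 9 ∨ N = 10 := by omega
      rcases hN with rfl | rfl
      · exact mfs9
      · exact mfs_twin (by norm_num) mfs9
    · have hN : N = 13 ∨ N = 14 := by omega
      rcases hN with rfl | rfl
      · exact h13
      · exact mfs_twin (by norm_num) h13
    · have hN : N = 17 ∨ N = 18 := by omega
      rcases hN with rfl | rfl
      · exact h17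
      · exact mfs_twin (by norm_num) h17
  · exact mfs_twin (by norm_num) mfs25
  · exact mfs_twin (by norm_num) h29

end ZS44129
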