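import Pool.Agent.Work.MP_44129c_co.Fin.Rng
import Pool.Agent.Work.MP_44129c_co.O2.EvT
import Pool.Agent.Work.MP_44129c_co.X2.Main
import Pool.Agent.Work.MP_44129c_co.X2.EMain
import Pool.Agent.Work.MP_44129c_co.M3.Main
import Pool.Agent.Work.MP_44129c_co.H.Main

/-!
# MP_44129c_co/Fin, Star (helper8): the range theorem from the blocks

odd `m`: O1, X2/Main; even `m`: O2, M3, X2/EMain; `t ≥ 2`: H.
-/

set_option autoImplicit false

namespace ZS44129

/-- no large `K`-class. -/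
theorem bigF_of {m s : ℕ} [NeZero m] {V : Type} [Fintype V] [DecidableEq V] (hV : Fintype.card V = m + s)
    (c : V → V → ZMod m) (hsym : ∀ x y, c x y = c y x) (hz : ZSF m c)
    (hs : 5 ≤ s ∨ (s = 4 ∧ m = 12)) (h1 : 3 * s ≤ m + 2) (h2 : m ≤ 3 * s + 2) (h20 : m ≠ 20 ∨ s ≠ 6)
    (hev : 2 ∣ m) (K : AddSubgroup (ZMod m)) (hK : Nat.card K = 2) : O2.BigF c s K :=
  fun _ _ hbig he => M3.even_big_false hsym hz hV hs h1 h2 h20 hev K hK hbig he

/-- the subgroup of order 2. -/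
theorem exists_K2 {m : ℕ} [NeZero m] (hev : 2 ∣ m) : ∃ K : AddSubgroup (ZMod m), Nat.card K = 2 :=
  G.exists_card 2 hev

theorem star_mf' {m s : ℕ} [NeZero m] (hr : RngK m s) {V : Type} [Fintype V] [DecidableEq V]
    (hV : Fintype.card V = m + s) (c : V → V → ZMod m) (hsym : ∀ x y, c x y = c y x)
    (hz : ZSF m c) : ∃ b : V → V → Bool, (∀ x y, b x y = b y x) ∧ MF m b := by
  rcases hr with ⟨h4, h1, h2, h10⟩ | ⟨h5, h1⟩ | ⟨h5, h1⟩ | h
  · -- `t < 0`
    exfalso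
    by_cases hev : 2 ∣ m
    · obtain ⟨K, hK⟩ := exists_K2 (m := m) hev
      exact O2.even_neg ⟨hsym, hz, hV, h4, h1, by omega, hev⟩ h2 K hK
        (bigF_of hV c hsym hz (by omega) h1 (by omega) (by omega) hev K hK)
    · exact O1.odd_neg ⟨hsym, hz, hV, h4, h1, by omega, hev⟩ h2
  · -- `t = 0`
    by_cases hev : 2 ∣ m
    · obtain ⟨K, hK⟩ := exists_K2 (m := m) hev
      exact O2.even_zero ⟨hsym, hz, hV, by omega, by omega, by omega, hev⟩ h5 h1 K hK
        (bigF_of hV c hsym hz (Or.inl h5) (by omega) (by omega) (by omega) hev K hK)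
    · exact O1.odd_zero ⟨hsym, hz, hV, by omega, by omega, by omega, hev⟩ h5 h1
  · -- `t = 1`
    by_cases hev : 2 ∣ m
    · obtain ⟨K, hK⟩ := exists_K2 (m := m) hev
      obtain ⟨I, hI, hcK⟩ := O2.even_one hsym hz hV h5 h1 K
        (bigF_of hV c hsym hz (by omega) (by omega) (by omega) (by omega) hev K hK)
      exact X2.even_one_mf (I := I) (K := K) ⟨hI, hK, fun x a => hcK x a⟩
    · exact X2.odd_one_mf ⟨hsym, hz, hV, by omega, by omega, by omega, hev⟩ h5 h1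
  · -- `t ≥ 2`
    exact H.t2_mf ⟨hsym, hz, hV, h⟩

end ZS44129
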